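import Pool.Agent.U62.RB.Hyp
import Pool.Agent.U581.FL.Bounded

/-!
# The errors in the law of Sato and Tate for random curves of genus `g ≥ 2` are independent Brownian motions

Let `C_c : Y ^ 2 = X ^ (2 g + 1) + c_(2 g) X ^ (2 g) + ... + c_0` be a curve of genus `g ≥ 2` with random integer coefficients, and let
`1 + a_1 T + a_2 T ^ 2 + ...` be the normalised Euler factor of its Jacobian at `p`, which should be distributed, over the primes
`p`, as the characteristic polynomial of a random matrix in `USp(2 g)`. The three smallest nontrivial irreducible characters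
of `USp(2 g)` are given by `a_1` (the standard representation, up to the sign), `a_2 - 1` (the exterior square without the invariant
vector) and `a_1 ^ 2 - a_2` (the symmetric square); for `g = 2` their degrees are `4`, `5` and `10`. Let `P` be a finite set of primes.
The partial sums of the three characters over the primes of `P`, in increasing order and divided by `|P| ^ (1 / 2)`, form three random
polygonal paths on `[0, 1]`. We show that they converge in distribution, in the space of triples of continuous functions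
on `[0, 1]`, to three independent Brownian motions.
-/

set_option autoImplicit false

namespace Pool.Agent.Results.MP_6dc561_nt.BrownianErrorTerm

open Finset MeasureTheory ProbabilityTheory
open scoped BoundedContinuousFunction NNReal

/-- The number of the solutions of `Y ^ 2 = X ^ (2 g + 1) + c_(2 g) X ^ (2 g) + ... + c_0` in the field with `p` elements. -/
noncomputable def points₁ (g p : ℕ) (c : Fin (2 * g + 1) → ℤ) : ℕ :=
  Nat.card {P : ZMod p × ZMod p // P.2 ^ 2 = P.1 ^ (2 * g + 1) + ∑ i, (c i : ZMod p) * P.1 ^ (i : ℕ)}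

open Classical in
/-- The number of the solutions of `Y ^ 2 = X ^ (2 g + 1) + c_(2 g) X ^ (2 g) + ... + c_0` in the field with `p ^ 2` elements. -/
noncomputable def points₂ (g p : ℕ) (c : Fin (2 * g + 1) → ℤ) : ℕ :=
  if h : p.Prime then
    haveI : Fact p.Prime := ⟨h⟩
    Nat.card {P : GaloisField p 2 × GaloisField p 2 // P.2 ^ 2 = P.1 ^ (2 * g + 1) + ∑ i, (c i : GaloisField p 2) * P.1 ^ (i : ℕ)}
  else 0

/-- `p` is odd and `X ^ (2 g + 1) + ... + c_0` is separable modulo `p`, so that the curve with this equation is smooth modulo `p`. -/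
def Smooth (g p : ℕ) (c : Fin (2 * g + 1) → ℤ) : Prop :=
  p ≠ 2 ∧ (Polynomial.X ^ (2 * g + 1) + ∑ i, Polynomial.C (c i : ZMod p) * Polynomial.X ^ (i : ℕ)).Separable

open Classical in
/-- The coefficient `a_1` of the normalised Euler factor `L_p(T / p ^ (1 / 2)) = 1 + a_1 T + a_2 T ^ 2 + ...` of the Jacobian:
the number `#C(F_p) - (p + 1)` divided by `p ^ (1 / 2)` (there is one point at infinity, so that `#C(F_p) = points₁ g p c + 1`), and
`0` if the curve is not smooth modulo `p`. -/
noncomputable def a₁ (g p : ℕ) (c : Fin (2 * g + 1) → ℤ) : ℝ :=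
  if Smooth g p c then (((points₁ g p c : ℝ) + 1) - ((p : ℝ) + 1)) / Real.sqrt p else 0

open Classical in
/-- The coefficient `a_2` of the normalised Euler factor: the number `((#C(F_p) - (p + 1)) ^ 2 + #C(F_{p ^ 2}) - (p ^ 2 + 1)) / (2 p)`
(where `#C(F_{p ^ 2}) = points₂ g p c + 1`), and `0` if the curve is not smooth modulo `p`. -/
noncomputable def a₂ (g p : ℕ) (c : Fin (2 * g + 1) → ℤ) : ℝ :=
  if Smooth g p c then
    ((((points₁ g p c : ℝ) + 1) - ((p : ℝ) + 1)) ^ 2 + (((points₂ g p c : ℝ) + 1) - ((p : ℝ) ^ 2 + 1))) / (2 * p)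
  else 0

/-- The values of the three characters of `USp(2 g)`: the standard representation (up to the sign), the exterior square without
the trivial representation, the symmetric square. -/
noncomputable def character (i : Fin 3) (g p : ℕ) (c : Fin (2 * g + 1) → ℤ) : ℝ :=
  if i = 0 then a₁ g p c else if i = 1 then a₂ g p c - 1 else a₁ g p c ^ 2 - a₂ g p c

/-- The polygonal path of the partial sums of the `i`-th character over the primes `p ∈ P`, divided by `|P| ^ (1 / 2)`: the
factor of the term of `p` is `0` for `|P| t ≤ r` and `1` for `|P| t ≥ r + 1`, where `r` is the number of the members of `P` which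
are smaller than `p`, and it is linear in between. At the time `m / |P|` the path is the sum over the `m` smallest members of `P`. -/
noncomputable def path (i : Fin 3) (g : ℕ) (P : Finset ℕ) (c : Fin (2 * g + 1) → ℤ) : C(unitInterval, ℝ) where
  toFun t := (∑ p ∈ P, character i g p c *
    max 0 (min 1 (P.card * (t : ℝ) - (P.filter (fun q => q < p)).card))) / √P.card
  continuous_toFun := by fun_prop

/-- The mean value of `f` over the integer vectors `c` with coordinates of absolute value at most `H`. -/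
noncomputable def average {n : ℕ} (H : ℕ) (f : (Fin n → ℤ) → ℝ) : ℝ :=
  (∑ c ∈ Fintype.piFinset (fun _ : Fin n => Finset.Icc (-(H : ℤ)) H), f c) / (2 * H + 1 : ℝ) ^ n

/-- The path of `B` on `[0, 1]` as a continuous function (and `0` if it is not continuous). -/
noncomputable def unitPath {Ω : Type} (B : ℝ≥0 → Ω → ℝ) (ω : Ω) : C(unitInterval, ℝ) :=
  ContinuousMap.mkD (fun t : unitInterval => B ⟨(t : ℝ), t.2.1⟩ ω) 0

lemma card_affine {F : Type} [Field F] [Fintype F] [DecidableEq F] (hF : ringChar F ≠ 2) (f : F → F) :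
    (Nat.card {P : F × F // P.2 ^ 2 = f P.1} : ℝ) = (Fintype.card F : ℝ) + ∑ x : F, (quadraticChar F (f x) : ℝ) := by
  classical
  have h1 : Nat.card {P : F × F // P.2 ^ 2 = f P.1} = ∑ x : F, Nat.card {y : F // y ^ 2 = f x} := by
    rw [← Nat.card_sigma]
    refine Nat.card_congr ⟨fun P => ⟨P.1.1, ⟨P.1.2, P.2⟩⟩, fun P => ⟨(P.1, P.2.1), P.2.2⟩, fun _ => rfl, fun _ => rfl⟩
  have h2 : ∀ x : F, ((Nat.card {y : F // y ^ 2 = f x} : ℕ) : ℤ) = quadraticChar F (f x) + 1 := by
    intro x
    rw [← quadraticChar_card_sqrts hF (f x)]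
    congr 1
    rw [Nat.card_eq_fintype_card, Fintype.card_subtype]
    congr 1
    ext y
    simp
  rw [h1]
  push_cast
  have h3 : ∀ x : F, ((Nat.card {y : F // y ^ 2 = f x} : ℕ) : ℝ) = (quadraticChar F (f x) : ℝ) + 1 := by
    intro x
    have := h2 x
    exact_mod_cast this
  rw [sum_congr rfl (fun x _ => h3 x), sum_add_distrib, sum_const, card_univ, nsmul_eq_mul, mul_one]
  ring

lemma res_cast {d p : ℕ} (hp : 0 < p) (c : Fin d → ℤ) (R : Type) [CommRing R] [CharP R p] (i : Fin d) :
    ((Pool.Agent.U62.RB.res p c i : ℕ) : R) = (c i : R) := by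
  unfold Pool.Agent.U62.RB.res
  have hp' : (0 : ℤ) < p := by exact_mod_cast hp
  have h1 : (((c i % p).toNat : ℕ) : ℤ) = c i % p := Int.toNat_of_nonneg (Int.emod_nonneg _ hp'.ne')
  have h2 : (((c i % p).toNat : ℕ) : R) = ((((c i % p).toNat : ℕ) : ℤ) : R) := by push_cast; rfl
  rw [h2, h1]
  have h3 : (p : ℤ) ∣ c i % p - c i := (Int.mod_modEq (c i) p).symm.dvd
  have h4 : ((c i % p - c i : ℤ) : R) = 0 := (CharP.intCast_eq_zero_iff R p _).2 h3
  push_cast at h4 ⊢
  exact sub_eq_zero.1 h4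

lemma pol_eq (g p : ℕ) [hp : Fact p.Prime] (c : Fin (2 * g + 1) → ℤ) :
    (Pool.Agent.Y57.FD.HM.pol p (D := 2 * g + 1) (fun i => ((Pool.Agent.U62.RB.res p c i : ℕ) : ZMod p))) =
    Polynomial.X ^ (2 * g + 1) + ∑ i, Polynomial.C (c i : ZMod p) * Polynomial.X ^ (i : ℕ) := by
  have e : (fun i => ((Pool.Agent.U62.RB.res p c i : ℕ) : ZMod p)) = fun i => (c i : ZMod p) := by
    funext i
    exact res_cast hp.out.pos c (ZMod p) i
  rw [e]
  rfl

lemma points₁_eq (g p : ℕ) [hp : Fact p.Prime] (h2 : p ≠ 2) (c : Fin (2 * g + 1) → ℤ) :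
    (points₁ g p c : ℝ) = (p : ℝ) + ∑ x : ZMod p, (quadraticChar (ZMod p)
      (Pool.Agent.Y57.FD.Mom.val (ZMod p) (2 * g + 1) (fun i => ((Pool.Agent.U62.RB.res p c i : ℕ) : ZMod p)) x) : ℝ) := by
  have e : (fun i => ((Pool.Agent.U62.RB.res p c i : ℕ) : ZMod p)) = fun i => (c i : ZMod p) := by
    funext i
    exact res_cast hp.out.pos c (ZMod p) i
  unfold points₁
  rw [card_affine (Pool.Agent.V11210.G2.ringChar_zmod p h2) (fun x => x ^ (2 * g + 1) + ∑ i, (c i : ZMod p) * x ^ (i : ℕ)), ZMod.card, e]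
  rfl

lemma points₂_eq (g p : ℕ) [hp : Fact p.Prime] (h2 : p ≠ 2) (c : Fin (2 * g + 1) → ℤ) :
    (points₂ g p c : ℝ) = (p : ℝ) ^ 2 + Pool.Agent.V11210.G2.SG p (D := 2 * g + 1)
      (fun i => ((Pool.Agent.U62.RB.res p c i : ℕ) : ZMod p)) := by
  classical
  letI : Fintype (GaloisField p 2) := Fintype.ofFinite _
  have e : ∀ x : GaloisField p 2, ∑ i, (c i : GaloisField p 2) * x ^ (i : ℕ) =
      ∑ i, ((Pool.Agent.U62.RB.res p c i : ℕ) : GaloisField p 2) * x ^ (i : ℕ) := by
    intro x
    refine Finset.sum_congr rfl fun i _ => ?_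
    rw [res_cast hp.out.pos c (GaloisField p 2) i]
  unfold points₂
  rw [dif_pos hp.out]
  simp only [e]
  rw [card_affine (Pool.Agent.V11210.G2.charL (ZMod p) (GaloisField p 2) (Pool.Agent.V11210.G2.ringChar_zmod p h2))
    (fun x : GaloisField p 2 => x ^ (2 * g + 1) + ∑ i, ((Pool.Agent.U62.RB.res p c i : ℕ) : GaloisField p 2) * x ^ (i : ℕ)),
    ← Nat.card_eq_fintype_card, GaloisField.card p 2 (by norm_num)]
  push_cast
  congr 1

lemma a₁_eq (g p : ℕ) (hp : p.Prime) (c : Fin (2 * g + 1) → ℤ) :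
    a₁ g p c = Pool.Agent.Y57.FD.HM.tr g p (Pool.Agent.U62.RB.res p c) := by
  classical
  haveI : Fact p.Prime := ⟨hp⟩
  unfold a₁ Pool.Agent.Y57.FD.HM.tr
  by_cases h2 : p = 2
  · rw [if_neg (fun h => h.1 h2), dif_neg (fun h => h.2 h2)]
  · rw [dif_pos ⟨hp, h2⟩]
    by_cases h3 : (Pool.Agent.Y57.FD.HM.pol p (D := 2 * g + 1) (fun i => ((Pool.Agent.U62.RB.res p c i : ℕ) : ZMod p))).Separable
    · have h4 : Smooth g p c := ⟨h2, by rw [pol_eq] at h3; exact h3⟩
      rw [if_pos h4, if_pos h3, points₁_eq g p h2, ZMod.card]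
      congr 1
      ring
    · have h4 : ¬ Smooth g p c := fun h => h3 (by rw [pol_eq]; exact h.2)
      rw [if_neg h4, if_neg h3]

lemma a₂_eq (g p : ℕ) (hp : p.Prime) (c : Fin (2 * g + 1) → ℤ) :
    a₂ g p c = Pool.Agent.V11210.G2.A2 g p (Pool.Agent.U62.RB.res p c) := by
  classical
  haveI : Fact p.Prime := ⟨hp⟩
  have hp0 : (0 : ℝ) < p := by exact_mod_cast hp.pos
  have e1 := a₁_eq g p hp c
  unfold a₂ Pool.Agent.V11210.G2.A2
  by_cases h2 : p = 2
  · rw [if_neg (fun h => h.1 h2), dif_neg (fun h => h.2 h2)]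
  · rw [dif_pos ⟨hp, h2⟩]
    by_cases h3 : (Pool.Agent.Y57.FD.HM.pol p (D := 2 * g + 1) (fun i => ((Pool.Agent.U62.RB.res p c i : ℕ) : ZMod p))).Separable
    · have h4 : Smooth g p c := ⟨h2, by rw [pol_eq] at h3; exact h3⟩
      rw [if_pos h4, if_pos h3, points₂_eq g p h2, ← e1]
      unfold a₁
      rw [if_pos h4, div_pow, Real.sq_sqrt hp0.le]
      field_simp
      ring
    · have h4 : ¬ Smooth g p c := fun h => h3 (by rw [pol_eq]; exact h.2)
      rw [if_neg h4, if_neg h3]

lemma character_eq (i : Fin 3) (g p : ℕ) (hp : p.Prime) (c : Fin (2 * g + 1) → ℤ) :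
    character i g p c = Pool.Agent.U62.RB.FH g i p c := by
  unfold character Pool.Agent.U62.RB.FH Pool.Agent.U62.RB.chr
  rw [a₁_eq g p hp c, a₂_eq g p hp c]

lemma path_eq (i : Fin 3) (g : ℕ) (P : Finset ℕ) (hP : ∀ p ∈ P, p.Prime)
    (c : Fin (2 * g + 1) → ℤ) : path i g P c =
      Pool.Agent.U581.FL.ppath P (√P.card) (fun p => Pool.Agent.U62.RB.FH g i p c) := by
  ext t
  rw [Pool.Agent.U581.FL.ppath_apply]
  change (∑ p ∈ P, character i g p c *
    max 0 (min 1 (P.card * (t : ℝ) - (P.filter (fun q => q < p)).card))) / √P.card = _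
  congr 1
  refine Finset.sum_congr rfl fun p hp => ?_
  rw [character_eq i g p (hP p hp) c]
  rfl

lemma average_eq {n : ℕ} (H : ℕ) (f : (Fin n → ℤ) → ℝ) : average H f = Pool.Agent.Y722.HS.EB H f := by
  unfold average Pool.Agent.Y722.HS.EB Pool.Agent.Y722.HS.box Pool.Agent.Y722.HS.IH
  rw [Fintype.card_fin]

/-- **The invariance principle for the errors in the law of Sato and Tate.** Let `g ≥ 2`, let `B_0, B_1, B_2` be independent
Brownian motions and `F` a bounded continuous function of three continuous functions on `[0, 1]`. For `ε > 0`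
there is a `K` with the following property. Let `P` be a set of at least `K` primes `p ≤ y` and `H ≥ y ^ K`. Then the mean value of `F`
at the three paths of the partial sums of `a_1(p)`, of `a_2(p) - 1` and of `a_1(p) ^ 2 - a_2(p)` over `p ∈ P`, where the
`a_i(p)` are the coefficients of the normalised Euler factors of the Jacobian of
`Y ^ 2 = X ^ (2 g + 1) + c_(2 g) X ^ (2 g) + ... + c_0`, over the integer vectors `c` with `|c_i| ≤ H`, differs
from `E F(B_0, B_1, B_2)` by at most `ε`. -/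
theorem result (g : ℕ) (hg : 2 ≤ g) {Ω : Type} [MeasurableSpace Ω] (μ : Measure Ω) [IsProbabilityMeasure μ]
    (B : Fin 3 → ℝ≥0 → Ω → ℝ) (hB : ∀ i, IsBrownianReal (B i) μ) (hI : iIndepFun (fun i ω t => B i t ω) μ)
    (F : (Fin 3 → C(unitInterval, ℝ)) →ᵇ ℝ) (ε : ℝ) (hε : 0 < ε) :
    ∃ K : ℕ, ∀ (P : Finset ℕ) (y H : ℕ), (∀ p ∈ P, p.Prime ∧ p ≤ y) → K ≤ P.card → y ^ K ≤ H →
      |average H (fun c => F (fun i => path i g P c)) - ∫ ω, F (fun i => unitPath (B i) ω) ∂μ| ≤ ε := by
  letI : MeasurableSpace C(unitInterval, ℝ) := borel _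
  haveI : BorelSpace C(unitInterval, ℝ) := ⟨rfl⟩
  obtain ⟨C, hC, hl⟩ := Pool.Agent.U62.RB.hyp_local hg
  have hBH : 0 ≤ Pool.Agent.U62.RB.BH g := (abs_nonneg _).trans (Pool.Agent.U62.RB.FH_abs g 0 2 0)
  obtain ⟨K, hK⟩ := Pool.Agent.U581.FL.bounded_main (2 * g + 1) 3 hBH (le_of_lt hC)
    (⟨hB, hI⟩ : Pool.Agent.U581.FL.IndBrown B μ) F hε
  refine ⟨K, fun P y H hP hPc hH => ?_⟩
  have h := hK ⟨Pool.Agent.U62.RB.FH g, P, y, H⟩ ⟨hP, hPc, hH, fun i p _ c c' hc => by
      change Pool.Agent.U62.RB.FH g i p c = Pool.Agent.U62.RB.FH g i p c'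
      unfold Pool.Agent.U62.RB.FH
      rw [Pool.Agent.U62.RB.res_congr hc],
    fun i p _ c => Pool.Agent.U62.RB.FH_abs g i p c, fun i p hp => (hl p (hP p hp).1).1 i,
    fun i j p hp => (hl p (hP p hp).1).2 i j⟩
  have e : (fun c => F (fun i => path i g P c)) = fun c =>
      F (Pool.Agent.U581.FL.BD.Y ⟨Pool.Agent.U62.RB.FH g, P, y, H⟩ c) := by
    funext c
    congr 1
    funext i
    exact path_eq i g P (fun p hp => (hP p hp).1) c
  rw [average_eq, e]
  exact h

end Pool.Agent.Results.MP_6dc561_nt.BrownianErrorTerm
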