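import Pool.Agent.U62.RB.Hyp

/-!
# The errors in the law of Sato and Tate for random curves of genus `g ≥ 2` are independent Gaussians

Let `C_c : Y ^ 2 = X ^ (2 g + 1) + c_(2 g) X ^ (2 g) + ... + c_0` be a curve of genus `g ≥ 2` with random integer coefficients, and let
`1 + a_1 T + a_2 T ^ 2 + ...` be the normalised Euler factor of its Jacobian at `p`, which should be distributed, over the primes
`p`, as the characteristic polynomial of a random matrix in `USp(2 g)`. The three smallest nontrivial irreducible characters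
of `USp(2 g)` are given by `a_1` (the standard representation, up to the sign), `a_2 - 1` (the exterior square without the invariant
vector) and `a_1 ^ 2 - a_2` (the symmetric square); for `g = 2` their degrees are `4`, `5` and `10`. We show that the sums of
the three characters over the primes of arbitrary finite sets `P`, with arbitrary weights, are jointly asymptotically normal and
independent, with the variances predicted by the orthogonality relations of the characters.
-/

set_option autoImplicit false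

namespace Pool.Agent.Results.MP_6dc561_nt.JointNormalLaw

open Finset MeasureTheory ProbabilityTheory

/-- The number of the solutions of `Y ^ 2 = X ^ (2 g + 1) + c_(2 g) X ^ (2 g) + ... + c_0` in the field with `p` elements. -/
noncomputable def points₁ (g p : ℕ) (c : Fin (2 * g + 1) → ℤ) : ℕ :=
  Nat.card {P : ZMod p × ZMod p // P.2 ^ 2 = P.1 ^ (2 * g + 1) + ∑ i, (c i : ZMod p) * P.1 ^ (i : ℕ)}

open Classical in
/-- The number of the solutions of `Y ^ 2 = X ^ (2 g + 1) + c_(2 g) X ^ (2 g) + ... + c_0` in the field with `p ^ 2` elements. -/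
noncomputable def points₂ (g p : ℕ) (c : Fin (2 * g + 1) → ℤ) : ℕ :=
  if h : p.Prime then
    haveI : Fact p.Prime := ⟨h⟩
    Nat.card {P : GaloisField p 2 × GaloisField p 2 // P.2 ^ 2 = P.1 ^ (2 * g + 1) + ∑ i, (c i : GaloisField p 2) * P.1 ^ (i : ℕ)}
  else 0

/-- `p` is odd and `X ^ (2 g + 1) + ... + c_0` is separable modulo `p`, so that the curve with this equation is smooth modulo `p`. -/
def Smooth (g p : ℕ) (c : Fin (2 * g + 1) → ℤ) : Prop :=
  p ≠ 2 ∧ (Polynomial.X ^ (2 * g + 1) + ∑ i, Polynomial.C (c i : ZMod p) * Polynomial.X ^ (i : ℕ)).Separable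

open Classical in
/-- The coefficient `a_1` of the normalised Euler factor `L_p(T / p ^ (1 / 2)) = 1 + a_1 T + a_2 T ^ 2 + ...` of the Jacobian:
the number `#C(F_p) - (p + 1)` divided by `p ^ (1 / 2)` (there is one point at infinity, so that `#C(F_p) = points₁ g p c + 1`), and
`0` if the curve is not smooth modulo `p`. -/
noncomputable def a₁ (g p : ℕ) (c : Fin (2 * g + 1) → ℤ) : ℝ :=
  if Smooth g p c then (((points₁ g p c : ℝ) + 1) - ((p : ℝ) + 1)) / Real.sqrt p else 0

open Classical in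
/-- The coefficient `a_2` of the normalised Euler factor: the number `((#C(F_p) - (p + 1)) ^ 2 + #C(F_{p ^ 2}) - (p ^ 2 + 1)) / (2 p)`
(where `#C(F_{p ^ 2}) = points₂ g p c + 1`), and `0` if the curve is not smooth modulo `p`. -/
noncomputable def a₂ (g p : ℕ) (c : Fin (2 * g + 1) → ℤ) : ℝ :=
  if Smooth g p c then
    ((((points₁ g p c : ℝ) + 1) - ((p : ℝ) + 1)) ^ 2 + (((points₂ g p c : ℝ) + 1) - ((p : ℝ) ^ 2 + 1))) / (2 * p)
  else 0

/-- The values of the three characters of `USp(2 g)`: the standard representation (up to the sign), the exterior square without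
the trivial representation, the symmetric square. -/
noncomputable def character (i : Fin 3) (g p : ℕ) (c : Fin (2 * g + 1) → ℤ) : ℝ :=
  if i = 0 then a₁ g p c else if i = 1 then a₂ g p c - 1 else a₁ g p c ^ 2 - a₂ g p c

/-- The proportion of the integer vectors `c` with coordinates of absolute value at most `H` which have the property `Q`. -/
noncomputable def proportion {n : ℕ} (H : ℕ) (Q : (Fin n → ℤ) → Prop) : ℝ :=
  ({c : Fin n → ℤ | (∀ i, |c i| ≤ H) ∧ Q c}.ncard : ℝ) / (2 * H + 1 : ℝ) ^ n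

/-- The distribution function of the standard normal law. -/
noncomputable def normal (u : ℝ) : ℝ := (gaussianReal 0 1).real (Set.Iic u)

lemma card_affine {F : Type} [Field F] [Fintype F] [DecidableEq F] (hF : ringChar F ≠ 2) (f : F → F) :
    (Nat.card {P : F × F // P.2 ^ 2 = f P.1} : ℝ) = (Fintype.card F : ℝ) + ∑ x : F, (quadraticChar F (f x) : ℝ) := by
  classical
  have h1 : Nat.card {P : F × F // P.2 ^ 2 = f P.1} = ∑ x : F, Nat.card {y : F // y ^ 2 = f x} := by
    rw [← Nat.card_sigma]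
    refine Nat.card_congr ⟨fun P => ⟨P.1.1, ⟨P.1.2, P.2⟩⟩, fun P => ⟨(P.1, P.2.1), P.2.2⟩, fun _ => rfl, fun _ => rfl⟩
  have h2 : ∀ x : F, ((Nat.card {y : F // y ^ 2 = f x} : ℕ) : ℤ) = quadraticChar F (f x) + 1 := by
    intro x
    rw [← quadraticChar_card_sqrts hF (f x)]
    congr 1
    rw [Nat.card_eq_fintype_card, Fintype.card_subtype]
    congr 1
    ext y
    simp
  rw [h1]
  push_cast
  have h3 : ∀ x : F, ((Nat.card {y : F // y ^ 2 = f x} : ℕ) : ℝ) = (quadraticChar F (f x) : ℝ) + 1 := by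
    intro x
    have := h2 x
    exact_mod_cast this
  rw [sum_congr rfl (fun x _ => h3 x), sum_add_distrib, sum_const, card_univ, nsmul_eq_mul, mul_one]
  ring

lemma res_cast {d p : ℕ} (hp : 0 < p) (c : Fin d → ℤ) (R : Type) [CommRing R] [CharP R p] (i : Fin d) :
    ((Pool.Agent.U62.RB.res p c i : ℕ) : R) = (c i : R) := by
  unfold Pool.Agent.U62.RB.res
  have hp' : (0 : ℤ) < p := by exact_mod_cast hp
  have h1 : (((c i % p).toNat : ℕ) : ℤ) = c i % p := Int.toNat_of_nonneg (Int.emod_nonneg _ hp'.ne')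
  have h2 : (((c i % p).toNat : ℕ) : R) = ((((c i % p).toNat : ℕ) : ℤ) : R) := by push_cast; rfl
  rw [h2, h1]
  have h3 : (p : ℤ) ∣ c i % p - c i := (Int.mod_modEq (c i) p).symm.dvd
  have h4 : ((c i % p - c i : ℤ) : R) = 0 := (CharP.intCast_eq_zero_iff R p _).2 h3
  push_cast at h4 ⊢
  exact sub_eq_zero.1 h4

lemma pol_eq (g p : ℕ) [hp : Fact p.Prime] (c : Fin (2 * g + 1) → ℤ) :
    (Pool.Agent.Y57.FD.HM.pol p (D := 2 * g + 1) (fun i => ((Pool.Agent.U62.RB.res p c i : ℕ) : ZMod p))) =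
    Polynomial.X ^ (2 * g + 1) + ∑ i, Polynomial.C (c i : ZMod p) * Polynomial.X ^ (i : ℕ) := by
  have e : (fun i => ((Pool.Agent.U62.RB.res p c i : ℕ) : ZMod p)) = fun i => (c i : ZMod p) := by
    funext i
    exact res_cast hp.out.pos c (ZMod p) i
  rw [e]
  rfl

lemma points₁_eq (g p : ℕ) [hp : Fact p.Prime] (h2 : p ≠ 2) (c : Fin (2 * g + 1) → ℤ) :
    (points₁ g p c : ℝ) = (p : ℝ) + ∑ x : ZMod p, (quadraticChar (ZMod p)
      (Pool.Agent.Y57.FD.Mom.val (ZMod p) (2 * g + 1) (fun i => ((Pool.Agent.U62.RB.res p c i : ℕ) : ZMod p)) x) : ℝ) := by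
  have e : (fun i => ((Pool.Agent.U62.RB.res p c i : ℕ) : ZMod p)) = fun i => (c i : ZMod p) := by
    funext i
    exact res_cast hp.out.pos c (ZMod p) i
  unfold points₁
  rw [card_affine (Pool.Agent.V11210.G2.ringChar_zmod p h2) (fun x => x ^ (2 * g + 1) + ∑ i, (c i : ZMod p) * x ^ (i : ℕ)), ZMod.card, e]
  rfl

lemma points₂_eq (g p : ℕ) [hp : Fact p.Prime] (h2 : p ≠ 2) (c : Fin (2 * g + 1) → ℤ) :
    (points₂ g p c : ℝ) = (p : ℝ) ^ 2 + Pool.Agent.V11210.G2.SG p (D := 2 * g + 1)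
      (fun i => ((Pool.Agent.U62.RB.res p c i : ℕ) : ZMod p)) := by
  classical
  letI : Fintype (GaloisField p 2) := Fintype.ofFinite _
  have e : ∀ x : GaloisField p 2, ∑ i, (c i : GaloisField p 2) * x ^ (i : ℕ) =
      ∑ i, ((Pool.Agent.U62.RB.res p c i : ℕ) : GaloisField p 2) * x ^ (i : ℕ) := by
    intro x
    refine Finset.sum_congr rfl fun i _ => ?_
    rw [res_cast hp.out.pos c (GaloisField p 2) i]
  unfold points₂
  rw [dif_pos hp.out]
  simp only [e]
  rw [card_affine (Pool.Agent.V11210.G2.charL (ZMod p) (GaloisField p 2) (Pool.Agent.V11210.G2.ringChar_zmod p h2))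
    (fun x : GaloisField p 2 => x ^ (2 * g + 1) + ∑ i, ((Pool.Agent.U62.RB.res p c i : ℕ) : GaloisField p 2) * x ^ (i : ℕ)),
    ← Nat.card_eq_fintype_card, GaloisField.card p 2 (by norm_num)]
  push_cast
  congr 1

lemma a₁_eq (g p : ℕ) (hp : p.Prime) (c : Fin (2 * g + 1) → ℤ) :
    a₁ g p c = Pool.Agent.Y57.FD.HM.tr g p (Pool.Agent.U62.RB.res p c) := by
  classical
  haveI : Fact p.Prime := ⟨hp⟩
  unfold a₁ Pool.Agent.Y57.FD.HM.tr
  by_cases h2 : p = 2
  · rw [if_neg (fun h => h.1 h2), dif_neg (fun h => h.2 h2)]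
  · rw [dif_pos ⟨hp, h2⟩]
    by_cases h3 : (Pool.Agent.Y57.FD.HM.pol p (D := 2 * g + 1) (fun i => ((Pool.Agent.U62.RB.res p c i : ℕ) : ZMod p))).Separable
    · have h4 : Smooth g p c := ⟨h2, by rw [pol_eq] at h3; exact h3⟩
      rw [if_pos h4, if_pos h3, points₁_eq g p h2, ZMod.card]
      congr 1
      ring
    · have h4 : ¬ Smooth g p c := fun h => h3 (by rw [pol_eq]; exact h.2)
      rw [if_neg h4, if_neg h3]

lemma a₂_eq (g p : ℕ) (hp : p.Prime) (c : Fin (2 * g + 1) → ℤ) :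
    a₂ g p c = Pool.Agent.V11210.G2.A2 g p (Pool.Agent.U62.RB.res p c) := by
  classical
  haveI : Fact p.Prime := ⟨hp⟩
  have hp0 : (0 : ℝ) < p := by exact_mod_cast hp.pos
  have e1 := a₁_eq g p hp c
  unfold a₂ Pool.Agent.V11210.G2.A2
  by_cases h2 : p = 2
  · rw [if_neg (fun h => h.1 h2), dif_neg (fun h => h.2 h2)]
  · rw [dif_pos ⟨hp, h2⟩]
    by_cases h3 : (Pool.Agent.Y57.FD.HM.pol p (D := 2 * g + 1) (fun i => ((Pool.Agent.U62.RB.res p c i : ℕ) : ZMod p))).Separable
    · have h4 : Smooth g p c := ⟨h2, by rw [pol_eq] at h3; exact h3⟩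
      rw [if_pos h4, if_pos h3, points₂_eq g p h2, ← e1]
      unfold a₁
      rw [if_pos h4, div_pow, Real.sq_sqrt hp0.le]
      field_simp
      ring
    · have h4 : ¬ Smooth g p c := fun h => h3 (by rw [pol_eq]; exact h.2)
      rw [if_neg h4, if_neg h3]

lemma character_eq (i : Fin 3) (g p : ℕ) (hp : p.Prime) (c : Fin (2 * g + 1) → ℤ) :
    character i g p c = Pool.Agent.U62.RB.FH g i p c := by
  unfold character Pool.Agent.U62.RB.FH Pool.Agent.U62.RB.chr
  rw [a₁_eq g p hp c, a₂_eq g p hp c]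

/-- **The joint normal law for the errors in the law of Sato and Tate.** Let `g ≥ 2`, `u_0, u_1, u_2` real, `δ > 0` and `ε > 0`.
There is a `K` with the following property. Let `P` be a set of at least `K` primes `p ≤ y` and let `|w_p| ≤ 1`, `p ∈ P`, be weights
with `∑ w_p ^ 2 ≥ δ |P|`. Then, for all `H ≥ y ^ K`, the proportion of the integer vectors `c` with `|c_i| ≤ H` for which the sums of
`w_p a_1(p)`, of `w_p (a_2(p) - 1)` and of `w_p (a_1(p) ^ 2 - a_2(p))` over `p ∈ P` are at most `u_0 σ`, `u_1 σ` and `u_2 σ`, where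
`σ ^ 2 = ∑ w_p ^ 2` and `a_i(p)` are the coefficients of the normalised Euler factors of the
Jacobian of `Y ^ 2 = X ^ (2 g + 1) + c_(2 g) X ^ (2 g) + ... + c_0`, differs from `Φ(u_0) Φ(u_1) Φ(u_2)` by at most `ε`. -/
theorem result (g : ℕ) (hg : 2 ≤ g) (u : Fin 3 → ℝ) (δ ε : ℝ) (hδ : 0 < δ) (hε : 0 < ε) :
    ∃ K : ℕ, ∀ (P : Finset ℕ) (w : ℕ → ℝ) (y H : ℕ), (∀ p ∈ P, p.Prime ∧ p ≤ y) → K ≤ P.card →
      (∀ p ∈ P, |w p| ≤ 1) → δ * P.card ≤ ∑ p ∈ P, w p ^ 2 → y ^ K ≤ H →
      |proportion H (fun c : Fin (2 * g + 1) → ℤ => ∀ i, ∑ p ∈ P, w p * character i g p c ≤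
        u i * √(∑ p ∈ P, w p ^ 2)) - ∏ i, normal (u i)| ≤ ε := by
  obtain ⟨K, hK⟩ := Pool.Agent.U62.RB.hyp_joint hg u hδ hε
  refine ⟨K, fun P w y H hP hPc hw hws hH => ?_⟩
  have h := hK P w y H hP hPc hw hws hH
  have e : (fun c : Fin (2 * g + 1) → ℤ => ∀ i, ∑ p ∈ P, w p * character i g p c ≤ u i * √(∑ p ∈ P, w p ^ 2)) =
      fun c => ∀ i, ∑ p ∈ P, w p * Pool.Agent.U62.RB.FH g i p c ≤ u i * √(∑ p ∈ P, w p ^ 2) := by
    funext c
    refine propext (forall_congr' fun i => ?_)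
    rw [Finset.sum_congr rfl fun p hp => by rw [character_eq i g p (hP p hp).1 c]]
  rw [e]
  exact h

end Pool.Agent.Results.MP_6dc561_nt.JointNormalLaw
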