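import Pool.Agent.U681.GF.Mn

/-!
# MP_6dc561_nt: the Sato-Tate law over all fields of bounded degree

`K` is a number field, `ρ` the representation of `Gal(K̄/K)` on `V_ℓ(A)` for an abelian variety `A` over
`K` of dimension `g` (here any symplectic representation, unramified outside a finite set; in the problem
`g = 2`).  The question is asked over all number fields.  We compare the law of the normalised
`L`-polynomials `det (1 - s(w) T)` of `A` at the primes `w` of `E`, for all finite extensions `E` of `K` of
degree at most `n`.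

There is one finite Galois extension `M` of `K`, of degree bounded in terms of `g`, `n` and the precision
`1/k` only (apart from the degree of the given field `L`, for instance the field over which the monodromy
group becomes connected), such that for every such `E` the law over `E` is, up to `1/k`, the law over
`E ∩ M`, and `A` has the same Sato-Tate groups over `E` and over `E ∩ M`.  In particular, if the
conjecture holds for `A` over `K`, it holds with precision `1/k` over all extensions `E` of degree at most
`n` with `E ∩ M = K`.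
-/

set_option autoImplicit false

namespace Pool.Agent.Results.MP_6dc561_nt.OneExtensionGovernsBaseChange

open NumberField IsDedekindDomain Filter Topology MeasureTheory
open Pool.Agent.K4H40.ST Pool.Agent.U681.STw Pool.Agent.U681.GF

section defs

variable {g : ℕ}

/-- The law of the normalised `L`-polynomials predicted by the Sato-Tate conjecture: for `C` with Haar
measure `μ` and classes `y w ∈ C`, the coefficient vectors of the `det (1 - (y w) T)` are equidistributed
for the image of `μ`. -/
def LawHolds (F : Type) [Field F] [NumberField F] {C : Subgroup (GL (Fin g ⊕ Fin g) ℂ)}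
    (y : HeightOneSpectrum (𝓞 F) → C) [MeasurableSpace C] (μ : Measure C) : Prop :=
  ∀ f : (Fin (2 * g + 1) → ℝ) → ℝ, Continuous f →
    Tendsto (mean F fun w => f (vec (y w : GL (Fin g ⊕ Fin g) ℂ))) atTop
      (𝓝 (∫ c : C, f (vec (c : GL (Fin g ⊕ Fin g) ℂ)) ∂μ))

/-- At the scale `N`, the laws over `E` and `E₀` differ by less than `1/k`, for all test functions at
the same time. -/
def Close (k N : ℕ) {E E₀ : Type} [Field E] [NumberField E] [Field E₀] [NumberField E₀]
    {C C₀ : Subgroup (GL (Fin g ⊕ Fin g) ℂ)} (y : HeightOneSpectrum (𝓞 E) → C)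
    (y₀ : HeightOneSpectrum (𝓞 E₀) → C₀) : Prop :=
  ∀ f, IsTest (g := g) f → |mean E (fun w => f (vec (y w : GL (Fin g ⊕ Fin g) ℂ))) N -
    mean E₀ (fun w => f (vec (y₀ w : GL (Fin g ⊕ Fin g) ℂ))) N| < 1 / k

/-- At the scale `N`, the law over `E` differs by less than `1/k` from the Haar measure of the group
`C₀`, for all test functions at the same time. -/
def CloseHaar (k N : ℕ) {E : Type} [Field E] [NumberField E]
    {C C₀ : Subgroup (GL (Fin g ⊕ Fin g) ℂ)} (y : HeightOneSpectrum (𝓞 E) → C) [MeasurableSpace C₀]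
    (μ : Measure C₀) : Prop :=
  ∀ f, IsTest (g := g) f → |mean E (fun w => f (vec (y w : GL (Fin g ⊕ Fin g) ℂ))) N -
    ∫ c : C₀, f (vec (c : GL (Fin g ⊕ Fin g) ℂ)) ∂μ| < 1 / k

variable {K : Type} [Field K] [NumberField K]

/-- `C` is a Sato-Tate group of `r` over `E`, and `y w ∈ C` is in the class of the prime `w` of `E` for
all but finitely many `w`. -/
def HasClasses (r : Gal(AlgebraicClosure K/K) →* GL (Fin g ⊕ Fin g) ℂ)
    (E : IntermediateField K (AlgebraicClosure K)) [NumberField E]
    (C : Subgroup (GL (Fin g ⊕ Fin g) ℂ)) (y : HeightOneSpectrum (𝓞 E) → C) : Prop :=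
  IsSatoTateGroup (restr r E) C ∧ IsClassSystem E (AlgebraicClosure K) (restr r E) C y

/-- The base change from `E₀` to `E` does not change the law of `r`, up to `1/k`:
(a) the Sato-Tate groups over `E` and over `E₀` are the same;
(b) for infinitely many scales in `𝓛` the laws over `E` and over `E₀` differ by less than `1/k`;
(c) if the conjectured law holds over `E₀`, then for infinitely many scales in `𝓛` the law over `E`
differs by less than `1/k` from the Haar measure of the Sato-Tate group. -/
def SameLaw (r : Gal(AlgebraicClosure K/K) →* GL (Fin g ⊕ Fin g) ℂ) (𝓛 : Filter ℕ) (k : ℕ)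
    (E E₀ : IntermediateField K (AlgebraicClosure K)) [NumberField E] [NumberField E₀] : Prop :=
  (∀ C' : Subgroup (GL (Fin g ⊕ Fin g) ℂ),
    IsSatoTateGroup (restr r E) C' ↔ IsSatoTateGroup (restr r E₀) C') ∧
  ∀ (C C₀ : Subgroup (GL (Fin g ⊕ Fin g) ℂ)) (y : HeightOneSpectrum (𝓞 E) → C)
    (y₀ : HeightOneSpectrum (𝓞 E₀) → C₀), HasClasses r E C y → HasClasses r E₀ C₀ y₀ →
    (∃ᶠ N : ℕ in 𝓛, Close k N y y₀) ∧
    ∀ [MeasurableSpace C₀] [BorelSpace C₀] (μ : Measure C₀) [IsProbabilityMeasure μ]
      [μ.IsMulLeftInvariant], LawHolds E₀ y₀ μ → ∃ᶠ N : ℕ in 𝓛, CloseHaar k N y μ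

/-- the degree of an intermediate field over `K` -/
noncomputable def deg (E : IntermediateField K (AlgebraicClosure K)) : ℕ := Module.finrank K E

/-- The extension `M` of `K` governs the law of `r` over the extensions `E` of degree at most `n`, up to
`1/k`: it does not change under base change from `E ∩ M` to `E`. -/
def Governs (r : Gal(AlgebraicClosure K/K) →* GL (Fin g ⊕ Fin g) ℂ) (𝓛 : Filter ℕ)
    (M : IntermediateField K (AlgebraicClosure K)) (n k : ℕ) : Prop :=
  ∀ (E E₀ : IntermediateField K (AlgebraicClosure K)) [NumberField E] [NumberField E₀],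
    E₀ = E ⊓ M → deg E ≤ n → SameLaw r 𝓛 k E E₀

/-- finite Galois extensions -/
def IsFiniteGalois (L : IntermediateField K (AlgebraicClosure K)) : Prop :=
  FiniteDimensional K L ∧ IsGalois K L

/-- `ρ` is symplectic, unramified outside a finite set of primes, `C` is a Sato-Tate group and `x` a
system of classes. -/
def Setting {R : Type} [CommRing R] (ρ : Gal(AlgebraicClosure K/K) →* GL (Fin g ⊕ Fin g) R)
    (ι : R →+* ℂ) (C : Subgroup (GL (Fin g ⊕ Fin g) ℂ)) (x : HeightOneSpectrum (𝓞 K) → C) : Prop :=
  IsSymplectic ρ ∧ IsUnramified K (AlgebraicClosure K) ρ ∧ IsSatoTateGroup (extend ρ ι) C ∧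
    IsClassSystem K (AlgebraicClosure K) (extend ρ ι) C x

variable (K)

/-- Every representation is connected over some finite Galois extension. -/
def AlwaysConnected : Prop :=
  ∀ (g : ℕ) (r : Gal(AlgebraicClosure K/K) →* GL (Fin g ⊕ Fin g) ℂ),
    ∃ L, IsFiniteGalois L ∧ IsConnectedOver r L

/-- `B` is a bound over `K`: let `ρ` (that is, `A`) have a Sato-Tate group and a system of classes, let `L`
be a finite Galois extension of `K` over which it is connected, and `𝓛` a filter of scales (for instance
all large `N`, or the large elements of any infinite set of scales).  Then there is a finite Galois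
extension `M ⊇ L` of `K` of degree at most `B [L : K]` which governs the law over all extensions of
degree at most `n`, up to `1/k`. -/
def IsBound (B g n k : ℕ) : Prop :=
  ∀ (R : Type) [CommRing R] (ρ : Gal(AlgebraicClosure K/K) →* GL (Fin g ⊕ Fin g) R) (ι : R →+* ℂ)
    (C : Subgroup (GL (Fin g ⊕ Fin g) ℂ)) (x : HeightOneSpectrum (𝓞 K) → C), Setting ρ ι C x →
  ∀ L : IntermediateField K (AlgebraicClosure K), IsFiniteGalois L →
    IsConnectedOver (extend ρ ι) L → ∀ 𝓛 : Filter ℕ, 𝓛.NeBot → 𝓛 ≤ atTop →
  ∃ M : IntermediateField K (AlgebraicClosure K), L ≤ M ∧ IsFiniteGalois M ∧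
    deg M ≤ B * deg L ∧ Governs (extend ρ ι) 𝓛 M n k

end defs

/-- **One finite extension governs the base change.**  Every representation is connected over some
finite Galois extension of `K`; and for all `g`, `n` and `k ≥ 1` there is a number `B` which is a bound
(`IsBound`) over all number fields `K`, for all representations. -/
theorem result :
    (∀ (K : Type) [Field K] [NumberField K], AlwaysConnected K) ∧
    ∀ g n k : ℕ, 1 ≤ k → ∃ B : ℕ, ∀ (K : Type) [Field K] [NumberField K], IsBound K B g n k := by
  refine ⟨fun K _ _ g r => ?_, fun g n k hk => ?_⟩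
  · obtain ⟨L, h1, h2, h3⟩ := exists_connected r
    exact ⟨L, ⟨h1, h2⟩, h3⟩
  obtain ⟨B, hB⟩ := core g n k hk
  refine ⟨B, ?_⟩
  rintro K _ _ R _ ρ ι C x ⟨hsymp, hunr, hC, hx⟩ L ⟨hfL, hgL⟩ hL 𝓛 hneb h𝓛
  obtain ⟨M, hLM, hfd, hgal, hdeg, hM⟩ := hB K R ρ ι hsymp hunr C hC x hx L 𝓛 h𝓛
  have hkR : (0 : ℝ) < k := by exact_mod_cast hk
  refine ⟨M, hLM, ⟨hfd, hgal⟩, hdeg, ?_⟩
  intro E E₀ _ _ hE hEn
  have hfdE : FiniteDimensional K E := FiniteDimensional.right ℚ K E
  have hnor : Normal K M := inferInstance
  refine ⟨fun C' => st_base hL hLM hE C', ?_⟩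
  rintro C' C₀ y y₀ ⟨-, hy⟩ ⟨hC₀, hy₀⟩
  obtain ⟨U, hU, hev⟩ := hM E E₀ hE hEn C' C₀ y y₀ hy hy₀
  have e1 : (1 : ℝ) / k = 4 * (1 / (4 * k)) := by field_simp
  have e2 : (3 : ℝ) / (4 * k) = 3 * (1 / (4 * k)) := by ring
  have e3 : (0 : ℝ) < 1 / (4 * k) := by positivity
  refine ⟨?_, ?_⟩
  · have h1 : ∃ᶠ N : ℕ in (U : Filter ℕ), Close k N y y₀ := by
      refine Eventually.frequently ?_
      filter_upwards [hev] with N hN f hf
      refine (hN f hf).trans ?_
      rw [e1, e2]
      linarith
    exact h1.filter_mono hU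
  · intro _ _ μ _ _ hlaw
    have h2 := (hU.trans h𝓛) (unif hC₀.compact y₀ μ hlaw (ε := 1 / (8 * k)) (by positivity))
    have h1 : ∃ᶠ N : ℕ in (U : Filter ℕ), CloseHaar k N y μ := by
      refine Eventually.frequently ?_
      filter_upwards [hev, h2] with N hN h3 f hf
      have h4 := hN f hf
      have h5 := h3 f hf
      have e4 : (1 : ℝ) / (8 * k) = (1 / (4 * k)) / 2 := by field_simp; norm_num
      rw [e4] at h5
      rw [e2] at h4
      rw [e1]
      rw [abs_lt] at h4 ⊢
      rw [abs_le] at h5
      constructor <;> linarith [h4.1, h4.2, h5.1, h5.2]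
    exact h1.filter_mono hU

end Pool.Agent.Results.MP_6dc561_nt.OneExtensionGovernsBaseChange
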